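import Pool.Agent.Work.MP_fe875b_lc.R4.Pot

/-!
MP_fe875b_lc, R3/TDefs: the template with one negative row and its step inequality.
-/

set_option autoImplicit false

namespace Pool.Agent.KServer.R3

open Pool.Agent.KServer.R4

variable {V : Type}

/-- The template `w(AAA) + w(abc) + w(aBB) - w(aBC) + w(aCe) + w(aCE)` (capital letters = antipodes). -/
def Tp (anti : V → V) (w : (Fin 3 → V) → ℝ) (a b c e : V) : ℝ :=
  w ![anti a, anti a, anti a] + w ![a, b, c] + w ![a, anti b, anti b] - w ![a, anti b, anti c] +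
    w ![a, anti c, e] + w ![a, anti c, anti e]

/-- The step inequality of the template: whatever the last request `z` and the new request `r` are. -/
def Step3 (D : V → V → ℝ) (anti : V → V) (Δ : ℝ) : Prop :=
  ∀ w : (Fin 3 → V) → ℝ, QWF D w → ∀ z : V, LastR D w z → ∀ r a b c e : V, ∃ a' b' c' e' : V,
    Tp anti w a' b' c' e' + (Δ + w ![r, anti r, anti r] - w ![anti r, anti r, anti r]) ≤ Tp anti (upd D w r) a b c e

/-- The potential. -/
noncomputable def Pt (anti : V → V) (w : (Fin 3 → V) → ℝ) : ℝ :=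
  ⨅ q : V × V × V × V, Tp anti w q.1 q.2.1 q.2.2.1 q.2.2.2

theorem Pt_le [Finite V] (anti : V → V) (w : (Fin 3 → V) → ℝ) (a b c e : V) : Pt anti w ≤ Tp anti w a b c e :=
  ciInf_le (f := fun q : V × V × V × V => Tp anti w q.1 q.2.1 q.2.2.1 q.2.2.2)
    (Set.finite_range _).bddBelow (a, b, c, e)

theorem exists_Pt [Finite V] [Nonempty V] (anti : V → V) (w : (Fin 3 → V) → ℝ) :
    ∃ a b c e : V, Pt anti w = Tp anti w a b c e := by
  obtain ⟨q, hq⟩ := exists_eq_ciInf_of_finite
    (f := fun q : V × V × V × V => Tp anti w q.1 q.2.1 q.2.2.1 q.2.2.2)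
  exact ⟨q.1, q.2.1, q.2.2.1, q.2.2.2, hq.symm⟩

theorem Pt_step [Finite V] {D : V → V → ℝ} {anti : V → V} {Δ : ℝ} (H : Step3 D anti Δ) {w : (Fin 3 → V) → ℝ}
    (hw : QWF D w) {z : V} (hz : LastR D w z) (r : V) :
    Pt anti w + (Δ + w ![r, anti r, anti r] - w ![anti r, anti r, anti r]) ≤ Pt anti (upd D w r) := by
  have : Nonempty V := ⟨z⟩
  obtain ⟨a, b, c, e, h⟩ := exists_Pt anti (upd D w r)
  obtain ⟨a', b', c', e', h'⟩ := H w hw z hz r a b c e
  rw [h]
  have := Pt_le anti w a' b' c' e'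
  linarith

/-- start value at a cone -/
theorem Tp_cone {D : V → V → ℝ} {anti : V → V} {Δ : ℝ} (ha : ∀ x y, D x (anti y) = Δ - D x y)
    (v a b c e : V) : Tp anti (wf0 D (fun _ : Fin 3 => v)) a b c e = 6 * Δ := by
  unfold Tp
  simp only [wf0_const, Fin.sum_univ_three, Matrix.cons_val_zero, Matrix.cons_val_one, Matrix.cons_val_two,
    Matrix.head_cons, Matrix.tail_cons]
  simp only [ha]
  ring

theorem Pt_cone [Finite V] {D : V → V → ℝ} {anti : V → V} {Δ : ℝ}
    (ha : ∀ x y, D x (anti y) = Δ - D x y) (v : V) : Pt anti (wf0 D (fun _ : Fin 3 => v)) = 6 * Δ := by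
  have : Nonempty V := ⟨v⟩
  obtain ⟨a, b, c, e, h⟩ := exists_Pt anti (wf0 D (fun _ : Fin 3 => v))
  rw [h, Tp_cone ha]

/-- The potential is at most four times the work function. -/
theorem Pt_le_four [Finite V] {D : V → V → ℝ} (hD : Metr D) {anti : V → V} {Δ : ℝ}
    (hai : ∀ x, anti (anti x) = x) (ha : ∀ x y, D x (anti y) = Δ - D x y) {w : (Fin 3 → V) → ℝ} (hw : QWF D w)
    (X : Fin 3 → V) : Pt anti w ≤ 4 * w X + 6 * Δ := by
  have hX : X = ![X 0, X 1, X 2] := by funext j; fin_cases j <;> rfl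
  generalize X 0 = x at hX
  generalize X 1 = y at hX
  generalize X 2 = t at hX
  subst hX
  have h := Pt_le anti w x y t (anti y)
  unfold Tp at h
  rw [hai] at h
  have n1 := hD.nonneg x y
  have n2 := hD.nonneg x t
  have n3 := hD.nonneg y t
  have n4 := hD.nonneg t y
  have c := hD.comm
  have s0 := hD.self
  have p1 : w ![x, anti t, anti y] = w ![x, anti y, anti t] := by
    rw [← hw.symm ![x, anti y, anti t] (Equiv.swap 1 2)]
    congr 1
    funext j
    fin_cases j <;> rfl
  have p2 : w ![x, anti t, y] = w ![x, y, anti t] := by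
    rw [← hw.symm ![x, y, anti t] (Equiv.swap 1 2)]
    congr 1
    funext j
    fin_cases j <;> rfl
  rw [p1, p2] at h
  have l1 := lip_sum hw ![x, y, t] ![anti x, anti x, anti x]
  have l2 := lip_sum hw ![x, y, t] ![x, anti y, anti y]
  have l3 := lip_sum hw ![x, y, t] ![x, y, anti t]
  rw [Fin.sum_univ_three] at l1 l2 l3
  simp only [Matrix.cons_val_zero, Matrix.cons_val_one, Matrix.cons_val_two,
    Matrix.head_cons, Matrix.tail_cons] at l1 l2 l3
  rw [ha, ha, ha, s0] at l1
  rw [ha, ha, s0, s0] at l2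
  rw [ha, s0, s0, s0] at l3
  have e1 := c y x
  have e2 := c t x
  linarith

end Pool.Agent.KServer.R3
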