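import Pool.Agent.Work.MP_fe875b_lc.R3.TDefs
import Pool.Agent.Work.MP_fe875b_lc.Circ.Wfa

/-!
MP_fe875b_lc, R3/Wf3: the step inequality of the template implies that every work function algorithm for three
servers is 3-competitive in every metric space.
-/

set_option autoImplicit false

namespace Pool.Agent.KServer.R3

open Finset Pool.Agent.KServer.R4

variable {V : Type}

theorem le_wf0_const {D : V → V → ℝ} (hD : Metr D) (c₀ : Fin 3 → V) (v : V) (X : Fin 3 → V) :
    wf0 D c₀ X ≤ wf0 D (fun _ => v) X + ∑ i, D (c₀ i) v := by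
  have h1 : wf0 D c₀ X ≤ ∑ i, D (c₀ i) (X ((1 : Equiv.Perm (Fin 3)) i)) :=
    ciInf_le (f := fun π : Equiv.Perm (Fin 3) => ∑ i : Fin 3, D (c₀ i) (X (π i))) (Set.finite_range _).bddBelow 1
  rw [wf0_const, ← sum_add_distrib]
  refine h1.trans (sum_le_sum fun i _ => ?_)
  have := hD.tri (c₀ i) v (X i)
  simp only [Equiv.Perm.coe_one, id_eq]
  linarith

/-- updates are monotone -/
theorem upd_mono (D : V → V → ℝ) {w w' : (Fin 3 → V) → ℝ} {K : ℝ} (h : ∀ X, w X ≤ w' X + K) (r : V) (X : Fin 3 → V) :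
    upd D w r X ≤ upd D w' r X + K := by
  obtain ⟨i, hi⟩ := exists_upd (k := 3) (by norm_num) D w' r X
  have h1 := upd_le D w r X i
  have h2 := h (Function.update X i r)
  rw [hi]
  linarith

theorem Tp_mono (anti : V → V) {w w' : (Fin 3 → V) → ℝ} {K : ℝ} (h1 : ∀ X, w X ≤ w' X + K) (h2 : ∀ X, w' X ≤ w X + K)
    (a b c e : V) : Tp anti w a b c e ≤ Tp anti w' a b c e + 6 * K := by
  unfold Tp
  linarith [h1 ![anti a, anti a, anti a], h1 ![a, b, c], h1 ![a, anti b, anti b], h2 ![a, anti b, anti c],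
    h1 ![a, anti c, e], h1 ![a, anti c, anti e]]

theorem Pt_mono [Finite V] [Nonempty V] (anti : V → V) {w w' : (Fin 3 → V) → ℝ} {K : ℝ} (h1 : ∀ X, w X ≤ w' X + K)
    (h2 : ∀ X, w' X ≤ w X + K) : Pt anti w ≤ Pt anti w' + 6 * K := by
  obtain ⟨a, b, c, e, h⟩ := exists_Pt anti w'
  rw [h]
  exact (Pt_le anti w a b c e).trans (Tp_mono anti h1 h2 a b c e)

/-- the first request from any start -/
theorem first_step [Finite V] {D : V → V → ℝ} (hD : Metr D) {anti : V → V} {Δ : ℝ}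
    (ha : ∀ x y, D x (anti y) = Δ - D x y) (H : Step3 D anti Δ) (c₀ : Fin 3 → V) (v r : V) :
    6 * Δ - 8 * ∑ i, D (c₀ i) v ≤ Pt anti (upd D (wf0 D c₀) r) -
      (Δ + wf0 D c₀ ![r, anti r, anti r] - wf0 D c₀ ![anti r, anti r, anti r]) := by
  have : Nonempty V := ⟨v⟩
  have hwa := qwf_wf0 (k := 3) hD (fun _ => v)
  have h1 := Pt_step H hwa (lastR_wf0 hD v) r
  rw [Pt_cone ha v] at h1
  have h3 := Pt_mono anti (w := upd D (wf0 D (fun _ : Fin 3 => v)) r) (w' := upd D (wf0 D c₀) r)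
    (K := ∑ i, D (c₀ i) v) (upd_mono D (fun X => wf0_const_le hD c₀ v X) r)
    (upd_mono D (fun X => le_wf0_const hD c₀ v X) r)
  have h4 := le_wf0_const hD c₀ v ![r, anti r, anti r]
  have h5 := wf0_const_le hD c₀ v ![anti r, anti r, anti r]
  linarith

theorem lastR_of_ne {D : V → V → ℝ} (hD : Metr D) (c₀ : Fin 3 → V) {τ : List V} (hτ : τ ≠ []) (v : V) :
    LastR D (wf D c₀ τ) (τ.getLastD v) := by
  rcases List.eq_nil_or_concat τ with h | ⟨l, r, h⟩
  · exact absurd h hτ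
  · rw [List.concat_eq_append] at h
    subst h
    rw [wf_append]
    have : (l ++ [r]).getLastD v = r := by simp
    rw [this]
    exact lastR_upd hD (qwf_wf (by norm_num) hD _ l) r

/-- Every work function algorithm for three servers is 3-competitive in every metric space, if the step inequality holds. -/
theorem wfa_three_of_step
    (H : ∀ (V : Type) [Finite V] (D : V → V → ℝ) (anti : V → V) (Δ : ℝ), Metr D → (∀ x, anti (anti x) = x) →
      (∀ x y, D x (anti y) = Δ - D x y) → Step3 D anti Δ)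
    (M : Type) [MetricSpace M] (c₀ : Fin 3 → M) (C : List M → Fin 3 → M) (hC : IsWFA dist c₀ C) (a : M)
    (σ : List M) (S : ℕ → Fin 3 → M) (hS : Serves c₀ σ S) :
    algCost dist C σ ≤ 3 * schedCost dist S σ.length + 8 * ∑ i, dist (c₀ i) a := by
  classical
  have hMet : Metr (dist : M → M → ℝ) :=
    { self := fun x => dist_self _
      nonneg := fun x y => dist_nonneg
      tri := fun x y z => dist_triangle _ _ _
      comm := fun x y => dist_comm _ _ }
  have hE : 0 ≤ ∑ i, dist (c₀ i) a := sum_nonneg fun i _ => dist_nonneg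
  rcases hσe : σ with _ | ⟨r₁, σ'⟩
  · rw [algCost_nil]
    have := schedCost_nonneg hMet.toIsDist S ([] : List M).length
    linarith
  have hσ0 : σ ≠ [] := by rw [hσe]; exact List.cons_ne_nil _ _
  have hr₁ : [r₁] <+: σ := by rw [hσe]; exact ⟨σ', rfl⟩
  rw [← hσe]
  let F : Finset M := insert a (univ.image c₀ ∪ σ.toFinset ∪ univ.image (S σ.length) ∪
    ((range (σ.length + 1)) ×ˢ (univ : Finset (Fin 3))).image (fun p => C (σ.take p.1) p.2))
  have haF0 : a ∈ F := mem_insert_self _ _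
  have hσF : ∀ x ∈ σ, x ∈ (F : Set M) := fun x hx =>
    mem_insert_of_mem (mem_union_left _ (mem_union_left _ (mem_union_right _ (List.mem_toFinset.2 hx))))
  have hcF : ∀ i, c₀ i ∈ (F : Set M) := fun i =>
    mem_insert_of_mem (mem_union_left _ (mem_union_left _ (mem_union_left _ (mem_image_of_mem _ (mem_univ i)))))
  have hSF : ∀ i, S σ.length i ∈ (F : Set M) := fun i =>
    mem_insert_of_mem (mem_union_left _ (mem_union_right _ (mem_image_of_mem _ (mem_univ i))))
  have hCF : ∀ (τ : List M), τ <+: σ → ∀ i, C τ i ∈ (F : Set M) := by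
    intro τ hτ i
    refine mem_insert_of_mem (mem_union_right _ (mem_image.2 ⟨(τ.length, i), ?_, ?_⟩))
    · exact mem_product.2 ⟨mem_range.2 (Nat.lt_succ_of_le hτ.length_le), mem_univ _⟩
    · show C (σ.take τ.length) i = C τ i
      rw [← List.prefix_iff_eq_take.1 hτ]
  clear_value F
  have hfin : Finite {x : M // x ∈ F} := inferInstance
  let D₀ : {x : M // x ∈ F} → {x : M // x ∈ F} → ℝ := fun x y => dist x.1 y.1
  have hD₀ : Metr D₀ :=
    { self := fun x => dist_self _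
      nonneg := fun x y => dist_nonneg
      tri := fun x y z => dist_triangle _ _ _
      comm := fun x y => dist_comm _ _ }
  obtain ⟨B, hB⟩ : ∃ B : ℝ, ∀ x y, D₀ x y ≤ B := by
    obtain ⟨B, hB⟩ := (Set.finite_range fun p : {x : M // x ∈ F} × {x : M // x ∈ F} => D₀ p.1 p.2).bddAbove
    exact ⟨B, fun x y => hB ⟨(x, y), rfl⟩⟩
  have hD := metr_antiD hD₀ hB (le_refl (2 * B))
  have ha := antiD_swap D₀ (2 * B)
  have hai : ∀ x : {x : M // x ∈ F} ⊕ {x : M // x ∈ F}, Sum.swap (Sum.swap x) = x := fun x => Sum.swap_swap x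
  generalize 2 * B = Δ at hD ha
  let φ : M → {x : M // x ∈ F} ⊕ {x : M // x ∈ F} := fun x => if hx : x ∈ F then Sum.inl ⟨x, hx⟩ else Sum.inl ⟨a, haF0⟩
  have hφ : ∀ x (hx : x ∈ F), φ x = Sum.inl ⟨x, hx⟩ := by
    intro x hx
    show (if hx : x ∈ F then (Sum.inl ⟨x, hx⟩ : {x : M // x ∈ F} ⊕ {x : M // x ∈ F}) else Sum.inl ⟨a, haF0⟩) = _
    rw [dif_pos hx]
  have hdist : ∀ x ∈ (F : Set M), ∀ y ∈ (F : Set M), antiD D₀ Δ (φ x) (φ y) = dist x y := by
    intro x hx y hy
    rw [hφ x hx, hφ y hy]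
    rfl
  have hwf : ∀ τ : List M, τ <+: σ → ∀ X : Fin 3 → M, (∀ i, X i ∈ (F : Set M)) →
      wf (antiD D₀ Δ) (fun i => φ (c₀ i)) (τ.map φ) (fun i => φ (X i)) = wf dist c₀ τ X := fun τ hτ X hX =>
    wf_map φ hdist hcF τ (fun x hx => hσF x (hτ.subset hx)) X hX
  clear_value φ
  generalize antiD D₀ Δ = D' at hD ha hdist hwf
  have H' := H _ D' Sum.swap Δ hD hai ha
  have hw := fun τ' => qwf_wf (k := 3) (by norm_num) hD (fun i => φ (c₀ i)) τ'
  let w₀ := wf D' (fun i => φ (c₀ i)) []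
  let e₀ : ℝ := Δ + w₀ ![φ r₁, Sum.swap (φ r₁), Sum.swap (φ r₁)] -
    w₀ ![Sum.swap (φ r₁), Sum.swap (φ r₁), Sum.swap (φ r₁)]
  let G : List M → ℝ := fun τ => Pt Sum.swap (wf D' (fun i => φ (c₀ i)) (τ.map φ))
  have hup : ∀ (τ' : List ({x : M // x ∈ F} ⊕ {x : M // x ∈ F})) (r : {x : M // x ∈ F} ⊕ {x : M // x ∈ F})
      (X : Fin 3 → {x : M // x ∈ F} ⊕ {x : M // x ∈ F}),
      wf D' (fun i => φ (c₀ i)) (τ' ++ [r]) X - wf D' (fun i => φ (c₀ i)) τ' X ≤
        Δ + wf D' (fun i => φ (c₀ i)) τ' ![r, Sum.swap r, Sum.swap r] -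
          wf D' (fun i => φ (c₀ i)) τ' ![Sum.swap r, Sum.swap r, Sum.swap r] := by
    intro τ' r X
    have h4 := upd_sub_le hD ha (hw τ') r 0 X
    rw [← wf_append] at h4
    have e1 : (fun _ : Fin 3 => Sum.swap r) = ![Sum.swap r, Sum.swap r, Sum.swap r] := by
      funext j; fin_cases j <;> rfl
    have e2 : Function.update (fun _ : Fin 3 => Sum.swap r) 0 r = ![r, Sum.swap r, Sum.swap r] := by
      funext j; fin_cases j <;> rfl
    rwa [e2, e1] at h4
  have key := wfa_bound (k := 3) (by norm_num) hMet hC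
    (fun τ => if τ = [] then G [r₁] - e₀ else G τ) σ (by
      intro τ r hτ
      have hτ' : τ <+: σ := (List.prefix_append _ _).trans hτ
      rw [← hwf (τ ++ [r]) hτ _ (hCF τ hτ'), ← hwf τ hτ' _ (hCF τ hτ')]
      have em : (τ ++ [r]).map φ = τ.map φ ++ [φ r] := by simp
      have ne : τ ++ [r] ≠ [] := by simp
      have h4 := hup (τ.map φ) (φ r) (fun i => φ (C τ i))
      rw [← em] at h4
      by_cases h0 : τ = []
      · subst h0
        have hr : r = r₁ := by
          rw [hσe] at hτ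
          obtain ⟨t, ht⟩ := hτ
          simpa using (List.cons.inj ht).1
        subst hr
        simp only [if_true, List.nil_append, List.map_nil, List.cons_ne_nil, if_false] at h4 ⊢
        show _ ≤ G [r] - (G [r] - e₀)
        have : e₀ = Δ + wf D' (fun i => φ (c₀ i)) [] ![φ r, Sum.swap (φ r), Sum.swap (φ r)] -
            wf D' (fun i => φ (c₀ i)) [] ![Sum.swap (φ r), Sum.swap (φ r), Sum.swap (φ r)] := rfl
        linarith
      · rw [if_neg ne, if_neg h0]
        have h5 := Pt_step H' (hw (τ.map φ)) (lastR_of_ne hD _ (by simpa using h0) (φ a)) (φ r)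
        rw [← wf_append] at h5
        have e6 : G (τ ++ [r]) = Pt Sum.swap (wf D' (fun i => φ (c₀ i)) (τ.map φ ++ [φ r])) := by
          show Pt Sum.swap (wf D' (fun i => φ (c₀ i)) ((τ ++ [r]).map φ)) = _
          rw [em]
        rw [e6]
        have e7 : G τ = Pt Sum.swap (wf D' (fun i => φ (c₀ i)) (τ.map φ)) := rfl
        rw [e7]
        linarith)
  simp only [if_true, if_neg hσ0] at key
  have hfirst := first_step hD ha H' (fun i => φ (c₀ i)) (φ a) (φ r₁)
  have eE : ∑ i, D' (φ (c₀ i)) (φ a) = ∑ i, dist (c₀ i) a :=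
    sum_congr rfl fun i _ => hdist _ (hcF i) _ haF0
  rw [eE] at hfirst
  have eG : G [r₁] = Pt Sum.swap (upd D' (wf0 D' fun i => φ (c₀ i)) (φ r₁)) := by
    show Pt Sum.swap (wf D' (fun i => φ (c₀ i)) ([r₁].map φ)) = _
    have e8 : [r₁].map φ = [] ++ [φ r₁] := by simp
    rw [e8, wf_append, wf_nil]
  rw [← eG] at hfirst
  have ee : e₀ = Δ + wf0 D' (fun i => φ (c₀ i)) ![φ r₁, Sum.swap (φ r₁), Sum.swap (φ r₁)] -
    wf0 D' (fun i => φ (c₀ i)) ![Sum.swap (φ r₁), Sum.swap (φ r₁), Sum.swap (φ r₁)] := rfl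
  rw [← ee] at hfirst
  have hsub := wf_le_sched (k := 3) (by norm_num) hMet c₀ σ S hS
  have b1 := Pt_le_four hD hai ha (hw (σ.map φ)) (fun i => φ (C σ i))
  have b2 := Pt_le_four hD hai ha (hw (σ.map φ)) (fun i => φ (S σ.length i))
  rw [hwf σ (List.prefix_refl _) _ (hCF σ (List.prefix_refl _))] at b1
  rw [hwf σ (List.prefix_refl _) _ hSF] at b2
  have eσ : G σ = Pt Sum.swap (wf D' (fun i => φ (c₀ i)) (σ.map φ)) := rfl
  rw [← eσ] at b1 b2
  rcases le_total (wf dist c₀ σ (C σ)) (wf dist c₀ σ (S σ.length)) with h6 | h6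
  · linarith
  · linarith

end Pool.Agent.KServer.R3
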